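import Pool.Agent.Triple97.Embed
import Pool.Agent.Triple97.Models

/-!
# Simple triple systems with the identities (I1), (I2), (I3)

A finite dimensional simple triple system over the complex numbers satisfies (I1), (I2), (I3) if
and only if it is isomorphic to one of

* the `n` by `n` matrices with the product `X Y Z` (`n ≥ 1`),
* the pairs `(a, a')` with `a` a `p` by `q` matrix and `a'` a `q` by `p` matrix, with the product
  `(a, a') (b, b') (c, c') = (a b' c, a' b c')` (`1 ≤ p ≤ q`).

No two systems of this list are isomorphic.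
-/

set_option autoImplicit false

namespace Pool.Agent.Results.MP_17450a_al.SimpleTripleSystems

open Pool.Agent.Triple97

universe u v

section Defs

variable {W : Type u} [AddCommGroup W] [Module ℂ W]

/-- The product `B(X, Y, Z)` is trilinear. -/
def IsTrilinear (B : W → W → W → W) : Prop :=
  (∀ (a b : ℂ) (X X' Y Z : W), B (a • X + b • X') Y Z = a • B X Y Z + b • B X' Y Z) ∧
  (∀ (a b : ℂ) (X Y Y' Z : W), B X (a • Y + b • Y') Z = a • B X Y Z + b • B X Y' Z) ∧
  (∀ (a b : ℂ) (X Y Z Z' : W), B X Y (a • Z + b • Z') = a • B X Y Z + b • B X Y Z')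

/-- `I` is an ideal of the triple system `(W, B)`: a product is in `I` as soon as one of its three
factors is. -/
def IsTripleIdeal (B : W → W → W → W) (I : Submodule ℂ W) : Prop :=
  ∀ X ∈ I, ∀ Y Z : W, B X Y Z ∈ I ∧ B Y X Z ∈ I ∧ B Y Z X ∈ I

/-- The triple system `(W, B)` is simple: some product is nonzero, and the only ideals are the
zero ideal and the whole space. -/
def IsSimple (B : W → W → W → W) : Prop :=
  (∃ X Y Z : W, B X Y Z ≠ 0) ∧ ∀ I : Submodule ℂ W, IsTripleIdeal B I → I = ⊥ ∨ I = ⊤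

/-- Identity (I1): `B(X,Y,B(X,V,U)) = B(X,B(Y,X,V),U)`. -/
def IdI1 (B : W → W → W → W) : Prop :=
  ∀ X Y V U : W, B X Y (B X V U) = B X (B Y X V) U

/-- Identity (I2): `B(X,B(Y,Z,V),Z) = B(B(X,Y,Z),V,Z)`. -/
def IdI2 (B : W → W → W → W) : Prop :=
  ∀ X Y Z V : W, B X (B Y Z V) Z = B (B X Y Z) V Z

/-- Identity (I3): `B(X,Y,B(Z,Y,V)) = B(B(X,Y,Z),Y,V)`. -/
def IdI3 (B : W → W → W → W) : Prop :=
  ∀ X Y Z V : W, B X Y (B Z Y V) = B (B X Y Z) Y V

/-- The triple systems `(W, B)` and `(W', B')` are isomorphic: a linear bijection `e` satisfies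
`e(B(X,Y,Z)) = B'(eX,eY,eZ)`. -/
def TripleIso {W' : Type v} [AddCommGroup W'] [Module ℂ W'] (B : W → W → W → W)
    (B' : W' → W' → W' → W') : Prop :=
  ∃ e : W ≃ₗ[ℂ] W', ∀ X Y Z : W, e (B X Y Z) = B' (e X) (e Y) (e Z)

end Defs

/-- The product `X Y Z` on the `n` by `n` matrices. -/
def matTriple (n : ℕ) (X Y Z : Matrix (Fin n) (Fin n) ℂ) : Matrix (Fin n) (Fin n) ℂ :=
  X * Y * Z

/-- The product `(a, a') (b, b') (c, c') = (a b' c, a' b c')` on the pairs of a `p` by `q` and a
`q` by `p` matrix. -/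
def pairTriple (p q : ℕ) (X Y Z : Matrix (Fin p) (Fin q) ℂ × Matrix (Fin q) (Fin p) ℂ) :
    Matrix (Fin p) (Fin q) ℂ × Matrix (Fin q) (Fin p) ℂ :=
  (X.1 * Y.2 * Z.1, X.2 * Y.1 * Z.2)

section Bridge

variable {W : Type u} [AddCommGroup W] [Module ℂ W]

/-- A trilinear product as nested linear maps. -/
def toLin (B : W → W → W → W) (hB : IsTrilinear B) : W →ₗ[ℂ] W →ₗ[ℂ] W →ₗ[ℂ] W :=
  LinearMap.mk₂ ℂ
    (fun X Y =>
      { toFun := fun Z => B X Y Z
        map_add' := by
          intro Z Z'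
          have := hB.2.2 1 1 X Y Z Z'
          simpa using this
        map_smul' := by
          intro c Z
          have := hB.2.2 c 0 X Y Z 0
          simpa using this })
    (by
      intro X X' Y
      refine LinearMap.ext fun Z => ?_
      have := hB.1 1 1 X X' Y Z
      simpa using this)
    (by
      intro c X Y
      refine LinearMap.ext fun Z => ?_
      have := hB.1 c 0 X 0 Y Z
      simpa using this)
    (by
      intro X Y Y'
      refine LinearMap.ext fun Z => ?_
      have := hB.2.1 1 1 X Y Y' Z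
      simpa using this)
    (by
      intro c X Y
      refine LinearMap.ext fun Z => ?_
      have := hB.2.1 c 0 X Y 0 Z
      simpa using this)

lemma toLin_apply (B : W → W → W → W) (hB : IsTrilinear B) (X Y Z : W) :
    toLin B hB X Y Z = B X Y Z := rfl

lemma isSimple_iff (B : W → W → W → W) (hB : IsTrilinear B) :
    IsSimple B ↔ IsSimpleTriple (toLin B hB) := by
  constructor
  · rintro ⟨⟨X, Y, Z, h⟩, h2⟩
    refine ⟨?_, h2⟩
    intro h0
    apply h
    rw [← toLin_apply B hB, h0]
    rfl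
  · rintro ⟨h1, h2⟩
    refine ⟨?_, h2⟩
    by_contra hcon
    push Not at hcon
    apply h1
    refine LinearMap.ext fun X => LinearMap.ext fun Y => LinearMap.ext fun Z => ?_
    exact hcon X Y Z

lemma TripleIso.trilinear_mat {B : W → W → W → W} {n : ℕ} (h : TripleIso B (matTriple n)) :
    IsTrilinear B := by
  obtain ⟨φ, hφ⟩ := h
  refine ⟨?_, ?_, ?_⟩ <;> intros <;> apply φ.injective <;>
    simp [hφ, matTriple, Matrix.add_mul, Matrix.mul_add]

lemma TripleIso.trilinear_pair {B : W → W → W → W} {p q : ℕ}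
    (h : TripleIso B (pairTriple p q)) : IsTrilinear B := by
  obtain ⟨φ, hφ⟩ := h
  refine ⟨?_, ?_, ?_⟩ <;> intros <;> apply φ.injective <;>
    simp [hφ, pairTriple, Matrix.add_mul, Matrix.mul_add]

end Bridge

/-- Full classification, up to isomorphism, of the simple triple systems satisfying (I1), (I2)
and (I3). -/
theorem result :
    (∀ (W : Type u) [AddCommGroup W] [Module ℂ W] [FiniteDimensional ℂ W] (B : W → W → W → W),
      (IsTrilinear B ∧ IsSimple B ∧ IdI1 B ∧ IdI2 B ∧ IdI3 B) ↔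
        ((∃ n : ℕ, 1 ≤ n ∧ TripleIso B (matTriple n)) ∨
          (∃ p q : ℕ, 1 ≤ p ∧ p ≤ q ∧ TripleIso B (pairTriple p q)))) ∧
    (∀ n m : ℕ, TripleIso (matTriple n) (matTriple m) → n = m) ∧
    (∀ p q p' q' : ℕ, 1 ≤ p → p ≤ q → 1 ≤ p' → p' ≤ q' →
      TripleIso (pairTriple p q) (pairTriple p' q') → p = p' ∧ q = q') ∧
    (∀ n p q : ℕ, 1 ≤ n → 1 ≤ p → p ≤ q → ¬ TripleIso (matTriple n) (pairTriple p q)) := by
  have hm : ∀ n, TripleIso (matTriple n) (matTriple n) :=
    fun n => ⟨LinearEquiv.refl ℂ _, fun _ _ _ => rfl⟩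
  have hp0 : ∀ p q, TripleIso (pairTriple p q) (pairTriple p q) :=
    fun p q => ⟨LinearEquiv.refl ℂ _, fun _ _ _ => rfl⟩
  refine ⟨?_, ?_, ?_, ?_⟩
  · intro W _ _ _ B
    constructor
    · rintro ⟨ht, hs, h1, h2, h3⟩
      exact classification (B := toLin B ht) h1 h2 h3 ((isSimple_iff B ht).1 hs)
    · rintro (⟨n, hn, hB⟩ | ⟨p, q, hp, hpq, hB⟩)
      · have ht := hB.trilinear_mat
        have hB' : IsMat (toLin B ht) n := hB
        obtain ⟨h1, h2, h3⟩ := isMat_ids hB'
        exact ⟨ht, (isSimple_iff B ht).2 (isMat_simple hn hB'), h1, h2, h3⟩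
      · have ht := hB.trilinear_pair
        have hB' : IsRect (toLin B ht) p q := hB
        obtain ⟨h1, h2, h3⟩ := isRect_ids hB'
        exact ⟨ht, (isSimple_iff B ht).2 (isRect_simple hp (hp.trans hpq) hB'), h1, h2, h3⟩
  · intro n m hnm
    have ht := (hm n).trilinear_mat
    have h1 : IsMat (toLin (matTriple n) ht) n := hm n
    have h2 : IsMat (toLin (matTriple n) ht) m := hnm
    exact isMat_unique h1 h2
  · intro p q p' q' hp hpq hp' hpq' hiso
    have ht := (hp0 p q).trilinear_pair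
    have h1 : IsRect (toLin (pairTriple p q) ht) p q := hp0 p q
    have h2 : IsRect (toLin (pairTriple p q) ht) p' q' := hiso
    exact isRect_unique hp hpq h1 hp' hpq' h2
  · intro n p q hn hp hpq hiso
    have ht := (hm n).trilinear_mat
    have h1 : IsMat (toLin (matTriple n) ht) n := hm n
    have h2 : IsRect (toLin (matTriple n) ht) p q := hiso
    exact isMat_isRect hn h1 hp hpq h2

end Pool.Agent.Results.MP_17450a_al.SimpleTripleSystems
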